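import Pool.Agent.Lib.SmN.H.Sum
import Pool.Agent.Lib.SmNH.Defs

/-!
HEIGHTS over SMITH-U (SmNH), section 1: the rigid versions of H3, H4 and Z3, in terms of explicit
lifts. Port of `Lib/SmH/H/FaceR.lean`.

The local lifts `Q X v` at the bad places `v ∉ S.good` do not depend on the vertex `X`, and the
classes `b_X` satisfy the local conditions at the good places only.
-/

set_option autoImplicit false

open Finset

namespace Pool.Agent.SmNH

open Pool.Agent.SmN

section

variable {G V V1 Pl I : Type*} [Group G] [AddCommGroup V] [DistribMulAction G V] [DecidableEq I]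
  [AddCommGroup V1] [Module (ZMod 2) V1]
variable {S : Sys G V V1 Pl}

variable {chi0 : G → ZMod 2} {del : I → G → ZMod 2} {j : ℕ} {W : Finset I}
  {Psi hat : Finset I → G → V} {Q : Finset I → Pl → V}

omit [DecidableEq I] in
/-- At a bad place all the characters `del i` are trivial on `D v`. -/
theorem del_bad {pl : I → Bool → Pl} (hC : CubeOk S chi0 del pl) {v : Pl} (hv : v ∉ S.good) :
    ∀ i, ∀ s ∈ S.D v, del i s = 0 := by
  have h1 : ∀ i e, v ≠ pl i e := fun i e h => hv (h ▸ hC.good i e)
  rcases hC.other v h1 with h | h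
  · exact h
  · exact absurd h.1 hv

/-- At a bad place the pair of the alternating sums of the local lifts vanishes. -/
theorem yC_bad (hS : S.Ok) {pl : I → Bool → Pl} (hC : CubeOk S chi0 del pl)
    (hQ : ∀ v, v ∉ S.good → ∀ X, X ⊆ W → ∀ Y, Y ⊆ W → Q X v = Q Y v) {R P : Finset I}
    (hR : R ⊆ W) (hP : P ⊆ W) (hne : R.Nonempty) {v : Pl} (hv : v ∉ S.good) :
    yC S chi0 del Q v R P = 0 := by
  have hdel := del_bad hC hv
  have key : ∀ s ∈ S.D v, alt R (fun X => dl (chiC chi0 del X) (Q X v) s) P = 0 := by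
    intro s hs
    have h1 : alt R (fun X => dl (chiC chi0 del X) (Q X v) s) P =
        alt R (fun _ => dl chi0 (Q P v) s) P := by
      apply alt_congr
      intro T hT
      have h2 : chiC chi0 del (P ∪ T) s = chi0 s := by
        unfold chiC
        rw [Finset.sum_eq_zero fun i _ => hdel i s hs, add_zero]
      rw [hQ v hv (P ∪ T) (Finset.union_subset hP (hT.trans hR)) P hP]
      exact dl_congr h2 _
    rw [h1, alt_const hne]
  apply Prod.ext
  · change S.un (alt R (fun X => dl (chiC chi0 del X) (Q X v) (S.sg v)) P) = 0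
    rw [key _ (hS.sg_mem v), Sys.un_zero hS]
  · change S.un (alt R (fun X => dl (chiC chi0 del X) (Q X v) (S.phi v)) P) = 0
    rw [key _ (hS.phi_mem v), Sys.un_zero hS]

/-- The local identity. -/
theorem face_placeR (hS : S.Ok) {pl : I → Bool → Pl} (hC : CubeOk S chi0 del pl)
    {bet : I → G → V1} (hB : BetOk S chi0 del pl bet)
    (hst : Star W j Psi)
    (hd : ∀ X, X ⊆ W → S.LiftData (chiC chi0 del X) (Psi X) (hat X) (Q X))
    (hQ : ∀ v, v ∉ S.good → ∀ X, X ⊆ W → ∀ Y, Y ⊆ W → Q X v = Q Y v) {U P : Finset I}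
    (hU : U ⊆ W) (hP : P ⊆ W) (hUP : Disjoint U P) (hj : j + 2 ≤ U.card)
    (b0 : G → V1)
    (hb : ∀ X, X ⊆ W → IsRel S (chiC chi0 del X) (bC b0 bet X)) (v : Pl) :
    ∑ T ∈ U.powerset, S.sy v (S.xi (chiC chi0 del (P ∪ T)) (hat (P ∪ T)) (Q (P ∪ T)) v)
        (S.loc v (bC b0 bet (P ∪ T))) =
      S.sy v (S.loc v (GC S hat U P)) (S.loc v (bC b0 bet (P ∪ U))) +
      ∑ i ∈ U, S.sy v (S.loc v (GC S hat (U.erase i) P)) (S.loc v (bet i)) := by
  have hchi : ∀ X, S.HomG (chiC chi0 del X) := chiC_hom hS hC.chi0_hom hC.del_hom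
  rw [face_abel (S := S) v b0 bet hUP
    (fun X => S.xi (chiC chi0 del X) (hat X) (Q X) v)]
  have hUe : ∀ i ∈ U, j + 1 ≤ (U.erase i).card := fun i hi => by
    rw [Finset.card_erase_of_mem hi]; omega
  have hUeW : ∀ i, U.erase i ⊆ W := fun i => (Finset.erase_subset i U).trans hU
  have hUeP : ∀ i, Disjoint (U.erase i) P := fun i => hUP.mono_left (Finset.erase_subset i U)
  rw [alt_xi hS hst hd hU hP hUP (by omega) v, Sys.sy_add_left]
  have h1 : ∀ i ∈ U, S.sy v (alt (U.erase i)
      (fun X => S.xi (chiC chi0 del X) (hat X) (Q X) v) P) (S.loc v (bet i)) =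
      S.sy v (S.loc v (GC S hat (U.erase i) P)) (S.loc v (bet i)) +
      S.sy v (yC S chi0 del Q v (U.erase i) P) (S.loc v (bet i)) := by
    intro i hi
    rw [alt_xi hS hst hd (hUeW i) hP (hUeP i) (hUe i hi) v, Sys.sy_add_left]
  rw [Finset.sum_congr rfl h1, Finset.sum_add_distrib]
  -- the case in which all twists agree except in the direction `i`
  have core : v ∈ S.good → ∀ i ∈ U, (∀ l ∈ U, l ≠ i → ∀ s ∈ S.D v, del l s = 0) →
      (∀ l ∈ U, l ≠ i → S.sy v (yC S chi0 del Q v (U.erase l) P) (S.loc v (bet l)) = 0) →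
      S.sy v (yC S chi0 del Q v U P) (S.loc v (bC b0 bet (P ∪ U))) +
      ∑ i ∈ U, S.sy v (yC S chi0 del Q v (U.erase i) P) (S.loc v (bet i)) = 0 := by
    intro hgood i hi hdel hzero
    have hPU : P ∪ U ⊆ W := Finset.union_subset hP hU
    have hiP : i ∉ P := fun h => (Finset.disjoint_left.1 hUP) hi h
    have hins : insert i P ⊆ W := Finset.insert_subset (hU hi) hP
    have hsum : ∑ l ∈ U, S.sy v (yC S chi0 del Q v (U.erase l) P)
        (S.loc v (bet l)) =
        S.sy v (yC S chi0 del Q v (U.erase i) P) (S.loc v (bet i)) := by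
      apply Finset.sum_eq_single i
      · intro l hl hli
        exact hzero l hl hli
      · intro hn
        exact absurd hi hn
    rw [hsum]
    have hdel' : ∀ l ∈ U.erase i, ∀ s ∈ S.D v, del l s = 0 := fun l hl s hs =>
      hdel l (Finset.mem_of_mem_erase hl) (Finset.ne_of_mem_erase hl) s hs
    have hdisj : Disjoint (U.erase i) (insert i P) := by
      rw [Finset.disjoint_insert_right]
      exact ⟨Finset.notMem_erase i U, hUeP i⟩
    -- u0, u1
    have hu : yC S chi0 del Q v U P =
        yC S chi0 del Q v (U.erase i) P + yC S chi0 del Q v (U.erase i) (insert i P) := by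
      apply Prod.ext
      · change S.un _ = S.un _ + S.un _
        rw [alt_of_mem hi, Sys.un_sub hS
          (two_q hst hd (hUeW i) hP (hUeP i) (hUe i hi) v (hS.sg_mem v))
          (two_q hst hd (hUeW i) hins hdisj (hUe i hi) v (hS.sg_mem v)), sub_eq_add_neg, V1_neg]
      · change S.un _ = S.un _ + S.un _
        rw [alt_of_mem hi, Sys.un_sub hS
          (two_q hst hd (hUeW i) hP (hUeP i) (hUe i hi) v (hS.phi_mem v))
          (two_q hst hd (hUeW i) hins hdisj (hUe i hi) v (hS.phi_mem v)), sub_eq_add_neg,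
          V1_neg]
    have hX0 : P ∪ U.erase i ⊆ W := Finset.union_subset hP (hUeW i)
    have hm0 : yC S chi0 del Q v (U.erase i) P ∈ S.Wl (chiC chi0 del (P ∪ U.erase i)) v :=
      yC_mem hS hst hd (hUeW i) hP (hUeP i) (hUe i hi) v hdel' Finset.subset_union_left
        (Finset.Subset.refl _)
    have hm1 : yC S chi0 del Q v (U.erase i) (insert i P) ∈ S.Wl (chiC chi0 del (P ∪ U)) v := by
      apply yC_mem hS hst hd (hUeW i) hins hdisj (hUe i hi) v hdel'
      · intro x hx
        rcases Finset.mem_insert.1 hx with rfl | h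
        · exact Finset.mem_union_right _ hi
        · exact Finset.mem_union_left _ h
      · intro x hx
        rcases Finset.mem_union.1 hx with h | h
        · exact Finset.mem_union_left _ (Finset.mem_insert_of_mem h)
        · by_cases hxi : x = i
          · subst hxi
            exact Finset.mem_union_left _ (Finset.mem_insert_self _ _)
          · exact Finset.mem_union_right _ (Finset.mem_erase.2 ⟨hxi, h⟩)
    have hb0 := (hb _ hX0).2 v hgood
    have hb1 := (hb _ hPU).2 v hgood
    have hbb : S.loc v (bC b0 bet (P ∪ U.erase i)) =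
        S.loc v (bC b0 bet (P ∪ U)) + S.loc v (bet i) := by
      have hsd : U \ U.erase i = {i} := by
        ext x
        simp only [Finset.mem_sdiff, Finset.mem_erase, Finset.mem_singleton]
        constructor
        · rintro ⟨h1, h2⟩
          by_contra hne
          exact h2 ⟨hne, h1⟩
        · rintro rfl
          exact ⟨hi, fun h => h.1 rfl⟩
      have h2 := fun s => bC_union b0 bet hUP (Finset.erase_subset i U) s
      apply Prod.ext
      · change bC b0 bet _ _ = bC b0 bet _ _ + bet i _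
        rw [h2, hsd, Finset.sum_singleton]
      · change bC b0 bet _ _ = bC b0 bet _ _ + bet i _
        rw [h2, hsd, Finset.sum_singleton]
    have e0 := hS.isot _ (hchi _) v _ hm0 _ hb0
    have e1 := hS.isot _ (hchi _) v _ hm1 _ hb1
    rw [hbb, Sys.sy_add_right] at e0
    rw [hu, Sys.sy_add_left, e1, add_zero]
    exact e0
  -- the local contribution
  have key : S.sy v (yC S chi0 del Q v U P) (S.loc v (bC b0 bet (P ∪ U))) +
      ∑ i ∈ U, S.sy v (yC S chi0 del Q v (U.erase i) P) (S.loc v (bet i)) = 0 := by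
    have hPU : P ∪ U ⊆ W := Finset.union_subset hP hU
    by_cases hgood : v ∈ S.good
    swap
    · rw [yC_bad hS hC hQ hU hP (Finset.card_pos.1 (by omega)) hgood, Sys.sy_zero_left, zero_add]
      refine Finset.sum_eq_zero fun i hi => ?_
      have := hUe i hi
      rw [yC_bad hS hC hQ (hUeW i) hP (Finset.card_pos.1 (by omega)) hgood, Sys.sy_zero_left]
    rcases cube_cases hS hC hB (Finset.card_pos.1 (by omega : 0 < U.card)) v with
      ⟨i, hi, hdel, hz⟩ | ⟨hdel, hz⟩ | ⟨hv, hc0, hd0, hb0⟩
    · -- a place of the cube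
      refine core hgood i hi hdel fun l hl hli => ?_
      rw [hz l hl hli, Sys.sy_zero_right]
    · -- all twists agree
      obtain ⟨i, hi⟩ := Finset.card_pos.1 (by omega : 0 < U.card)
      refine core hgood i hi (fun l _ _ => hdel l) fun l hl _ => ?_
      obtain ⟨z, hz⟩ := hz l
      rw [hz]
      apply hS.sy_cob
      apply Sys.Wl_sub_CP hS (hchi P) v
      exact yC_mem hS hst hd (hUeW l) hP (hUeP l) (hUe l hl) v (fun m _ => hdel m)
        (Finset.Subset.refl P) Finset.subset_union_left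
    · -- everything unramified
      have hchi0 : ∀ X, chiC chi0 del X (S.sg v) = 0 := fun X => by
        unfold chiC
        rw [hc0, Finset.sum_eq_zero (fun i _ => hd0 i), add_zero]
      have hy : ∀ R, (yC S chi0 del Q v R P).1 = 0 := fun R =>
        yC_unr hS hv (fun T _ => hchi0 _)
      have hbu : (S.loc v (bC b0 bet (P ∪ U))).1 = 0 :=
        (Sys.mem_Wl_good hS (hchi _) hv (hchi0 _) _).1 ((hb _ hPU).2 v hgood)
      have e0 : S.sy v (yC S chi0 del Q v U P) (S.loc v (bC b0 bet (P ∪ U))) = 0 :=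
        Sys.sy_unr_zero hS hv (hy U) hbu
      rw [e0, zero_add]
      apply Finset.sum_eq_zero
      intro i _
      exact Sys.sy_unr_zero hS hv (hy _) (hb0 i)
  calc _ = S.sy v (S.loc v (GC S hat U P)) (S.loc v (bC b0 bet (P ∪ U))) +
      ∑ i ∈ U, S.sy v (S.loc v (GC S hat (U.erase i) P)) (S.loc v (bet i)) +
      (S.sy v (yC S chi0 del Q v U P) (S.loc v (bC b0 bet (P ∪ U))) +
      ∑ i ∈ U, S.sy v (yC S chi0 del Q v (U.erase i) P) (S.loc v (bet i))) := by
        ring
    _ = _ := by rw [key, add_zero]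

/-- The sum over the vertices of a face of the pairings, computed with the given lifts. -/
theorem face_sumR (hS : S.Ok) {pl : I → Bool → Pl} (hC : CubeOk S chi0 del pl)
    {bet : I → G → V1} (hB : BetOk S chi0 del pl bet)
    (hst : Star W j Psi)
    (hd : ∀ X, X ⊆ W → S.LiftData (chiC chi0 del X) (Psi X) (hat X) (Q X))
    (hQ : ∀ v, v ∉ S.good → ∀ X, X ⊆ W → ∀ Y, Y ⊆ W → Q X v = Q Y v) {U P : Finset I}
    (hU : U ⊆ W) (hP : P ⊆ W) (hUP : Disjoint U P) (hj : j + 2 ≤ U.card)
    (b0 : G → V1)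
    (hb : ∀ X, X ⊆ W → IsRel S (chiC chi0 del X) (bC b0 bet X)) :
    ∑ T ∈ U.powerset, ∑ᶠ v, S.sy v (S.xi (chiC chi0 del (P ∪ T)) (hat (P ∪ T)) (Q (P ∪ T)) v)
        (S.loc v (bC b0 bet (P ∪ T))) =
      ∑ᶠ v, (S.sy v (S.loc v (GC S hat U P)) (S.loc v (bC b0 bet (P ∪ U))) +
      ∑ i ∈ U, S.sy v (S.loc v (GC S hat (U.erase i) P)) (S.loc v (bet i))) := by
  have hchi : ∀ X, S.HomG (chiC chi0 del X) := chiC_hom hS hC.chi0_hom hC.del_hom
  have hX : ∀ T ∈ U.powerset, P ∪ T ⊆ W := fun T hT =>
    Finset.union_subset hP ((Finset.mem_powerset.1 hT).trans hU)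
  rw [← finsum_sum_comm U.powerset _ (fun T hT =>
    (hd _ (hX T hT)).supp hS (hchi _) (hb _ (hX T hT)).1)]
  apply finsum_congr
  intro v
  exact face_placeR hS hC hB hst hd hQ hU hP hUP hj b0 hb v

/-- Rigid H3: the zero sum theorem for faces of dimension `j + 3` (or more). -/
theorem zero_sumR (hS : S.Ok) {pl : I → Bool → Pl} (hC : CubeOk S chi0 del pl)
    {bet : I → G → V1} (hB : BetOk S chi0 del pl bet)
    (hst : Star W j Psi)
    (hd : ∀ X, X ⊆ W → S.LiftData (chiC chi0 del X) (Psi X) (hat X) (Q X))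
    (hQ : ∀ v, v ∉ S.good → ∀ X, X ⊆ W → ∀ Y, Y ⊆ W → Q X v = Q Y v)
    {U P : Finset I} (hU : U ⊆ W) (hP : P ⊆ W) (hUP : Disjoint U P) (hj : j + 3 ≤ U.card)
    (b0 : G → V1)
    (hb : ∀ X, X ⊆ W → IsRel S (chiC chi0 del X) (bC b0 bet X)) :
    ∑ T ∈ U.powerset, ∑ᶠ v, S.sy v (S.xi (chiC chi0 del (P ∪ T)) (hat (P ∪ T)) (Q (P ∪ T)) v)
        (S.loc v (bC b0 bet (P ∪ T))) = 0 := by
  rw [face_sumR hS hC hB hst hd hQ hU hP hUP (by omega) b0 hb]
  have hG : S.CocG (GC S hat U P) := GC_hom hS hst hd hU hP hUP (by omega)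
  have hGi : ∀ i ∈ U, S.CocG (GC S hat (U.erase i) P) := fun i hi =>
    GC_hom hS hst hd ((Finset.erase_subset i U).trans hU) hP
      (hUP.mono_left (Finset.erase_subset i U)) (by rw [Finset.card_erase_of_mem hi]; omega)
  have hbU := (hb _ (Finset.union_subset hP hU)).1
  have hw : ∀ i, S.CocG (bet i) := hB.coc
  have hfin : ∀ i ∈ U, {v | S.sy v (S.loc v (GC S hat (U.erase i) P))
      (S.loc v (bet i)) ≠ 0}.Finite := fun i hi =>
    Sys.sy_supp hS (hGi i hi) (hw i)
  rw [finsum_add_distrib (Sys.sy_supp hS hG hbU), finsum_sum_comm U _ hfin, hS.recip _ _ hG hbU,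
    zero_add]
  · exact Finset.sum_eq_zero fun i hi => hS.recip _ _ (hGi i hi) (hw i)
  · refine (Set.Finite.biUnion (Finset.finite_toSet U) hfin).subset ?_
    intro v hv
    by_contra hn
    apply hv
    apply Finset.sum_eq_zero
    intro i hi
    by_contra h
    exact hn (Set.mem_biUnion (Finset.mem_coe.2 hi) h)

/-- The global cochain of a face of dimension `j + 1` is a cocycle if all the subfaces are
minimal: `A_U (2 ^ a Psi) = 0` as soon as `|U| + a ≥ j`. -/
theorem GC_hom_min (hS : S.Ok) (hst : Star W j Psi)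
    (hd : ∀ X, X ⊆ W → S.LiftData (chiC chi0 del X) (Psi X) (hat X) (Q X)) {R P : Finset I}
    (hR : R ⊆ W) (hP : P ⊆ W) (hRP : Disjoint R P) (hj : j + 1 ≤ R.card)
    (hm : ∀ U, U ⊆ R → ∀ P', P' ⊆ W → Disjoint U P' → ∀ a, j ≤ U.card + a →
      ∀ s, alt U (fun T => (2 : ℕ) ^ a • Psi T s) P' = 0) :
    S.CocG (GC S hat R P) := by
  have h2 : ∀ s, (2 : ℕ) • alt R (fun X => hat X s) P = 0 := fun s =>
    two_hat hst hd hR hP hRP hj s
  refine ⟨GC_tf hS hd hR hP, fun s t => ?_⟩
  apply hS.iota_inj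
  change S.iota (S.un _) = S.iota (S.un _ + S.ac s (S.un _))
  rw [map_add, Sys.iota_un hS (h2 _), Sys.iota_un hS (h2 _),
    ← Sys.tw_of_two hS (chiC chi0 del P) s (h2 t), alt_cocycle chi0 del hat s t R P hRP (fun T hT =>
      (hd _ (Finset.union_subset hP (hT.trans hR))).coc s t)]
  congr 1
  rw [← Finset.add_sum_erase R.powerset _ (Finset.empty_mem_powerset R)]
  have h3 : ∑ T ∈ R.powerset.erase ∅, (2 ^ T.card * (pdel del T s).val) •
      alt (R \ T) (fun Q => hat Q t) (P ∪ T) = 0 := by
    apply Finset.sum_eq_zero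
    intro T hT
    obtain ⟨hT0, hT1⟩ := Finset.mem_erase.1 hT
    have hTR : T ⊆ R := Finset.mem_powerset.1 hT1
    have hTpos : 0 < T.card := Finset.card_pos.2 (Finset.nonempty_iff_ne_empty.2 hT0)
    have hcard : (R \ T).card = R.card - T.card := Finset.card_sdiff_of_subset hTR
    have hle : T.card ≤ R.card := Finset.card_le_card hTR
    have hPT : P ∪ T ⊆ W := Finset.union_subset hP (hTR.trans hR)
    have h4 : alt (R \ T) (fun Q => (2 : ℕ) ^ T.card • hat Q t) (P ∪ T) = 0 := by
      have h5 := hm (R \ T) Finset.sdiff_subset (P ∪ T) hPT (by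
        rw [Finset.disjoint_left]
        intro x hx hx'
        obtain ⟨h6, h7⟩ := Finset.mem_sdiff.1 hx
        rcases Finset.mem_union.1 hx' with h | h
        · exact (Finset.disjoint_left.1 hRP) h6 h
        · exact h7 h) (T.card - 1) (by omega) t
      rw [← h5]
      apply alt_congr
      intro X hX
      rw [← (hd _ (Finset.union_subset hPT ((hX.trans Finset.sdiff_subset).trans hR))).two t,
        smul_smul, ← pow_succ]
      congr 2
      omega
    rw [mul_comm, mul_smul, ← alt_nsmul, h4, smul_zero]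
  rw [h3, add_zero]
  have hv : (1 : ZMod 2).val = 1 := rfl
  simp only [Finset.card_empty, pow_zero, pdel_empty, hv, mul_one, one_smul, Finset.sdiff_empty,
    Finset.union_empty]

/-- Z3: the zero sum theorem in dimension `j + 2` if the faces without the direction `ia` are
minimal and `b` varies only in the direction `ia`. -/
theorem z3R [Fintype I] (hS : S.Ok) {pl : I → Bool → Pl} (hC : CubeOk S chi0 del pl)
    {bet : I → G → V1} (hB : BetOk S chi0 del pl bet)
    (hst : Star univ j Psi)
    (hd : ∀ X, S.LiftData (chiC chi0 del X) (Psi X) (hat X) (Q X))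
    (hQ : ∀ v, v ∉ S.good → ∀ X Y, Q X v = Q Y v) (hI : j + 2 ≤ Fintype.card I)
    (ia : I) (hm : ∀ U, ia ∉ U → ∀ P, Disjoint U P → ∀ a, j ≤ U.card + a →
      ∀ s, alt U (fun T => (2 : ℕ) ^ a • Psi T s) P = 0)
    (b0 : G → V1) (hw : ∀ i, i ≠ ia → ∀ s, bet i s = 0)
    (hb : ∀ X, IsRel S (chiC chi0 del X) (bC b0 bet X)) :
    ∑ X : Finset I, ∑ᶠ v, S.sy v (S.xi (chiC chi0 del X) (hat X) (Q X) v)
        (S.loc v (bC b0 bet X)) = 0 := by
  have hsum := face_sumR hS hC hB hst (fun X _ => hd X) (fun v hv X _ Y _ => hQ v hv X Y)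
    (U := univ) (P := ∅) (Finset.Subset.refl _) (Finset.empty_subset _)
    (Finset.disjoint_empty_right _) (by rwa [Finset.card_univ]) b0 (fun X _ => hb X)
  simp only [Finset.empty_union, Finset.powerset_univ] at hsum
  rw [hsum]
  have hG : S.CocG (GC S hat univ ∅) := GC_hom hS hst (fun X _ => hd X) (Finset.Subset.refl _)
    (Finset.empty_subset _) (Finset.disjoint_empty_right _) (by rwa [Finset.card_univ])
  have hGa : S.CocG (GC S hat (univ.erase ia) ∅) :=
    GC_hom_min hS hst (fun X _ => hd X) (Finset.subset_univ _) (Finset.empty_subset _)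
      (Finset.disjoint_empty_right _) (by
        rw [Finset.card_erase_of_mem (Finset.mem_univ ia), Finset.card_univ]; omega)
      (fun U hU P' _ hUP a ha s =>
        hm U (fun h => (Finset.notMem_erase ia univ) (hU h)) P' hUP a ha s)
  have hbU := (hb univ).1
  have hwi : S.CocG (bet ia) := hB.coc ia
  have hterm : ∀ v, S.sy v (S.loc v (GC S hat univ ∅)) (S.loc v (bC b0 bet univ)) +
      ∑ i, S.sy v (S.loc v (GC S hat (univ.erase i) ∅)) (S.loc v (bet i)) =
      S.sy v (S.loc v (GC S hat univ ∅)) (S.loc v (bC b0 bet univ)) +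
      S.sy v (S.loc v (GC S hat (univ.erase ia) ∅)) (S.loc v (bet ia)) := by
    intro v
    congr 1
    apply Finset.sum_eq_single ia
    · intro i _ hi
      have : S.loc v (bet i) = 0 := Prod.ext (hw i hi _) (hw i hi _)
      rw [this, Sys.sy_zero_right]
    · intro hn
      exact absurd (Finset.mem_univ ia) hn
  rw [finsum_congr hterm, finsum_add_distrib (Sys.sy_supp hS hG hbU) (Sys.sy_supp hS hGa hwi),
    hS.recip _ _ hG hbU, hS.recip _ _ hGa hwi, add_zero]

/-- Rigid H4: the top sum theorem. -/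
theorem top_sumR [Fintype I] (hS : S.Ok) {pl : I → Bool → Pl} (hC : CubeOk S chi0 del pl)
    {bet : I → G → V1} (hB : BetOk S chi0 del pl bet)
    (hst : Star univ j Psi)
    (hd : ∀ X, S.LiftData (chiC chi0 del X) (Psi X) (hat X) (Q X))
    (hQ : ∀ v, v ∉ S.good → ∀ X Y, Q X v = Q Y v)
    (hI : Fintype.card I = j + 2) (b0 : G → V1)
    (hb : ∀ X, IsRel S (chiC chi0 del X) (bC b0 bet X)) (ib : I)
    (hw : ∀ i, i ≠ ib → ∀ s, bet i s = 0) {Th : G → V1} (htf : S.TF Th)
    (hrel : ThRel S j del Psi (univ.erase ib) Th)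
    (hunr : ∀ v ∈ S.good, Th (S.sg v) = 0) :
    ∑ X : Finset I, ∑ᶠ v, S.sy v (S.xi (chiC chi0 del X) (hat X) (Q X) v)
        (S.loc v (bC b0 bet X)) =
      S.e (Th (S.phi (pl ib false))) (bet ib (S.sg (pl ib false))) +
      S.e (Th (S.phi (pl ib true))) (bet ib (S.sg (pl ib true))) := by
  classical
  have hsum := face_sumR hS hC hB hst (fun X _ => hd X) (fun v hv X _ Y _ => hQ v hv X Y)
    (U := univ) (P := ∅) (Finset.Subset.refl _) (Finset.empty_subset _)
    (Finset.disjoint_empty_right _) (by rw [Finset.card_univ]; omega) b0 (fun X _ => hb X)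
  simp only [Finset.empty_union, Finset.powerset_univ] at hsum
  rw [hsum]
  have hG : S.CocG (GC S hat univ ∅) := GC_hom hS hst (fun X _ => hd X) (Finset.Subset.refl _)
    (Finset.empty_subset _) (Finset.disjoint_empty_right _) (by rw [Finset.card_univ]; omega)
  have hbU := (hb univ).1
  have hwi : S.CocG (bet ib) := hB.coc ib
  -- the cocycle `om`
  have hWc : (univ.erase ib : Finset I).card = j + 1 := by
    rw [Finset.card_erase_of_mem (Finset.mem_univ ib), Finset.card_univ]; omega
  have hrel' : ThRel S j del Psi (univ.erase ib) (GC S hat (univ.erase ib) ∅) :=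
    om_rel hS hWc (hst.mono (Finset.erase_subset _ _))
      (fun T _ => (hd T).coc)
      (fun T _ => (hd T).two)
  have hom : S.CocG (fun s => GC S hat (univ.erase ib) ∅ s - Th s) :=
    ⟨(GC_tf hS (fun X _ => hd X) (W := univ) (Finset.erase_subset _ _)
      (Finset.empty_subset _)).comp₂ hS htf
      (fun a b => a - b), fun s t => hrel'.sub_coc hrel s t⟩
  -- the local terms
  have hterm : ∀ v, S.sy v (S.loc v (GC S hat univ ∅)) (S.loc v (bC b0 bet univ)) +
      ∑ i, S.sy v (S.loc v (GC S hat (univ.erase i) ∅)) (S.loc v (bet i)) =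
      S.sy v (S.loc v (GC S hat univ ∅)) (S.loc v (bC b0 bet univ)) +
      S.sy v (S.loc v (fun s => GC S hat (univ.erase ib) ∅ s - Th s)) (S.loc v (bet ib)) +
      S.sy v (S.loc v Th) (S.loc v (bet ib)) := by
    intro v
    have h1 : ∑ i, S.sy v (S.loc v (GC S hat (univ.erase i) ∅)) (S.loc v (bet i)) =
        S.sy v (S.loc v (GC S hat (univ.erase ib) ∅)) (S.loc v (bet ib)) := by
      apply Finset.sum_eq_single ib
      · intro i _ hi
        have : S.loc v (bet i) = 0 := Prod.ext (hw i hi _) (hw i hi _)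
        rw [this, Sys.sy_zero_right]
      · intro hn
        exact absurd (Finset.mem_univ ib) hn
    rw [h1, add_assoc]
    congr 1
    rw [← Sys.sy_add_left]
    congr 2
    apply Prod.ext
    · change _ = GC S hat (univ.erase ib) ∅ _ - Th _ + Th _
      rw [sub_add_cancel]; rfl
    · change _ = GC S hat (univ.erase ib) ∅ _ - Th _ + Th _
      rw [sub_add_cancel]; rfl
  rw [finsum_congr hterm]
  -- the two special places
  have hne : pl ib false ≠ pl ib true := by
    intro h
    have h1 := hC.chi0_sg ib false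
    have h2 := hC.chi0_sg ib true
    rw [h] at h1
    rw [h1] at h2
    exact absurd h2 (by decide)
  have hval : ∀ v, S.sy v (S.loc v Th) (S.loc v (bet ib)) =
      if v = pl ib false ∨ v = pl ib true then S.e (Th (S.phi v)) (bet ib (S.sg v)) else 0 := by
    intro v
    by_cases hv : v = pl ib false ∨ v = pl ib true
    · rw [if_pos hv]
      obtain ⟨e, rfl⟩ : ∃ e, v = pl ib e := by
        rcases hv with h | h
        · exact ⟨false, h⟩
        · exact ⟨true, h⟩
      have hg := hC.good ib e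
      have h1 : Th (S.sg (pl ib e)) = 0 := hunr _ hg
      rw [hS.sy_split _ hg (hC.split ib e)]
      simp only [Sys.loc, h1]
      simp
    · rw [if_neg hv]
      push Not at hv
      by_cases hex : ∃ i e, v = pl i e
      · obtain ⟨i, e, rfl⟩ := hex
        have hi : ib ≠ i := by
          rintro rfl
          cases e
          · exact hv.1 rfl
          · exact hv.2 rfl
        have : S.loc (pl i e) (bet ib) = 0 :=
          Prod.ext (hB.D i e ib hi _ (hS.sg_mem _)) (hB.D i e ib hi _ (hS.phi_mem _))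
        rw [this, Sys.sy_zero_right]
      · push Not at hex
        rcases hB.other v hex with ⟨h, hz⟩ | ⟨h1, _, _, h4⟩
        · obtain ⟨z, hz⟩ := hz ib
          have : S.loc v (bet ib) = S.cob v z :=
            Prod.ext (hz _ (hS.sg_mem v)) (hz _ (hS.phi_mem v))
          rw [this]
          exact hS.sy_cob v _ (hrel.cp htf h) z
        · exact Sys.sy_unr_zero hS h1 (hunr v h1) (h4 ib)
  have hsupp : {v | S.sy v (S.loc v Th) (S.loc v (bet ib)) ≠ 0} ⊆
      (({pl ib false, pl ib true} : Finset Pl) : Set Pl) := by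
    intro v hv
    by_contra hn
    apply hv
    rw [hval v, if_neg]
    intro h
    apply hn
    simpa using h
  have hfin3 : {v | S.sy v (S.loc v Th) (S.loc v (bet ib)) ≠ 0}.Finite :=
    (Finset.finite_toSet _).subset hsupp
  have hf1 := Sys.sy_supp hS hG hbU
  have hf2 := Sys.sy_supp hS hom hwi
  have hf12 : {v | S.sy v (S.loc v (GC S hat univ ∅)) (S.loc v (bC b0 bet univ)) +
      S.sy v (S.loc v (fun s => GC S hat (univ.erase ib) ∅ s - Th s))
        (S.loc v (bet ib)) ≠ 0}.Finite := by
    refine (hf1.union hf2).subset ?_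
    intro v hv
    by_contra hn
    rw [Set.mem_union, not_or] at hn
    apply hv
    rw [not_not.1 hn.1, not_not.1 hn.2, add_zero]
  rw [finsum_add_distrib hf12 hfin3, finsum_add_distrib hf1 hf2, hS.recip _ _ hG hbU,
    hS.recip _ _ hom hwi, add_zero, zero_add, finsum_eq_sum_of_support_subset _ hsupp,
    Finset.sum_pair hne, hval, hval, if_pos (Or.inl rfl), if_pos (Or.inr rfl)]

end

end Pool.Agent.SmNH
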